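import Pool.Agent.Helper40.SV.Leaves
import Pool.Agent.Helper94.SV.JPlus

/-!
# `HMax` from the step L1a

`L1A`: if `(a, b, c)` is exceptional, `a, b, c, d ∈ E`, `E` maximal, and `a` commutes with `d`, then `u = [a, b]` commutes
with `d`. Together with the step K0 this implies that `u` commutes with every element of `E`: then `u = 1`.
-/

set_option autoImplicit false

open Subgroup

namespace Pool.Agent.Helper40.SV

open Pool.Agent.Helper46.SV (kk cj ww omg cc cj_sq cj_cj cj_mul cj_kk inv_of commute_iff_cj cj_comm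
  law_of_noD16 noD16_of dl_of mul_mem_of_max Exc ExcAny p3_or_exc p3_or_exc_of)
open Pool.Agent.Helper46.SV.TE (Law DL ek_left ek_right ek_sq ek_comm abc_four omg_sq omg_cyc omg_comm
  ww_symm ej ec)
open Pool.Agent.Helper94.SV.Frame (c2 DLaw MaxLaw NoLF Thin thin_comm)
open Pool.Agent.Helper94.SV.JPrime (HMax)
open Pool.Agent.Helper91.SV (k0)
open Pool.Agent.Helper89.SV (P3)

universe u

/-- the step L1a -/
def L1A : Prop := ∀ (Q : Type u) [Group Q], Pool.Agent.Helper94.SV.Sec.NoD16 Q → ∀ E : Set Q, MaxLaw E →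
  ∀ a ∈ E, ∀ b ∈ E, ∀ c ∈ E, ∀ d ∈ E, Exc a b c → Commute a d → Commute (kk a b) d

section main

variable {Q : Type u} [Group Q] {E : Set Q}

/-- the first two elements of an exceptional triple may be exchanged -/
theorem exc_swap (h : Law E) {a b c : Q} (ha : a ∈ E) (hb : b ∈ E) (hc : c ∈ E) (hexc : Exc a b c) :
    Exc b a c := by
  obtain ⟨h1, h2, h3, h4⟩ := hexc
  have hk : kk b a = kk a b := (ek_comm h.toDL ha hb).symm
  refine ⟨?_, ?_, ?_, ?_⟩
  · rw [hk, h1, abc_four h ha hb hc, abc_four h hb ha hc, omg_comm h ha hb hc]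
  · rw [hk]
    exact h2
  · rw [ww_symm h ha hb hc]
    exact h4
  · rw [← ww_symm h hb ha hc]
    exact h3

/-- `u` commutes with every element of `E` -/
theorem central_of_L1A (hL : L1A.{u}) (hS : Pool.Agent.Helper94.SV.Sec.NoD16 Q) (hE : MaxLaw E) {a b c : Q} (ha : a ∈ E)
    (hb : b ∈ E) (hc : c ∈ E) (hexc : Exc a b c) {d : Q} (hd : d ∈ E) : Commute (kk a b) d := by
  have hS' := noD16_of hS
  have hl : Law E := law_of_noD16 hS' (dl_of hE.law)
  have hdl := hl.toDL
  have hexc' := exc_swap hl ha hb hc hexc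
  have hk : kk b a = kk a b := (ek_comm hdl ha hb).symm
  -- elements commuting with `a` or with `b`
  have hA : ∀ e ∈ E, Commute (kk a b) (cj a e) := fun e he =>
    hL Q hS E hE a ha b hb c hc _ (ej hdl ha he) hexc (ec hdl ha he)
  have hB : ∀ e ∈ E, Commute (kk a b) (cj b e) := fun e he => by
    rw [← hk]
    exact hL Q hS E hE b hb a ha c hc _ (ej hdl hb he) hexc' (ec hdl hb he)
  -- elements commuting with `c`
  have hC : ∀ e ∈ E, Commute c e → Commute (kk a b) e := fun e he hce => by
    refine k0 hS' hE.law ha hb hc he hexc (hA e he) (hB e he) ?_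
    rw [(commute_iff_cj (hdl.inv e he)).mp hce]
    exact hexc.2.1
  exact k0 hS' hE.law ha hb hc hd hexc (hA d hd) (hB d hd) (hC _ (ej hdl hc hd) (ec hdl hc hd))

/-- exceptional triples are trivial -/
theorem exc_trivial (hL : L1A.{u}) (hS : Pool.Agent.Helper94.SV.Sec.NoD16 Q) (hQ : NoLF Q) (hE : MaxLaw E) {a b c : Q}
    (ha : a ∈ E) (hb : b ∈ E) (hc : c ∈ E) (hexc : Exc a b c) : (a * b * c) ^ 4 = 1 := by
  rw [← hexc.1]
  refine thin_comm hQ hE ha hb ?_
  have h1 : ∀ d ∈ E, d * c2 a b * d = c2 a b := fun d hd =>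
    (commute_iff_cj (hE.law.inv d hd)).mp (central_of_L1A hL hS hE ha hb hc hexc hd)
  intro d hd e he
  rw [h1 d hd, h1 e he]

end main

/-- **HMax** from L1a -/
theorem hmax_of_L1A (hL : L1A.{u}) : HMax.{u} := by
  intro Q _ hS hQ E hE a ha b hb c hc
  have hS' := noD16_of hS
  have h : Law E := law_of_noD16 hS' (dl_of hE.law)
  have h0 := h.toDL
  have key : ∀ {x y z : Q}, x ∈ E → y ∈ E → z ∈ E → Exc x y z → omg x y z = 1 := by
    intro x y z hx hy hz hexc
    rw [← abc_four h hx hy hz]
    exact exc_trivial hL hS hQ hE hx hy hz hexc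
  -- the same `ω` for the six triples
  have same : ∀ {x y z : Q}, x ∈ E → y ∈ E → z ∈ E → omg x (cj y z) z = omg x y z := by
    intro x y z hx hy hz
    have hyz := ej h0 hy hz
    have i1 : x * cj y z * z = x * z * y := by
      simp only [cj, mul_assoc, h.inv z hz, mul_one]
    rw [← abc_four h hx hyz hz, i1, abc_four h hx hz hy, ← omg_cyc h hy hx hz,
      omg_comm h hy hx hz]
  rcases p3_or_exc_of hS hE.law ha hb hc with h1 | h1 | h1 | h1 | h1 | h1 | h1
  · exact h1
  · rw [abc_four h ha hb hc]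
    exact key ha hb hc h1
  · rw [abc_four h ha hb hc, ← same ha hb hc]
    exact key ha (ej h0 hb hc) hc h1
  · rw [abc_four h ha hb hc, omg_cyc h ha hb hc]
    exact key hb hc ha h1
  · rw [abc_four h ha hb hc, omg_cyc h ha hb hc, ← same hb hc ha]
    exact key hb (ej h0 hc ha) ha h1
  · rw [abc_four h ha hb hc, omg_cyc h ha hb hc, omg_cyc h hb hc ha]
    exact key hc ha hb h1
  · rw [abc_four h ha hb hc, omg_cyc h ha hb hc, omg_cyc h hb hc ha, ← same hc ha hb]
    exact key hc (ej h0 ha hb) hb h1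

/-- **L1a** for all groups -/
theorem l1A : L1A.{u} := fun _ _ hS _ hE a ha b hb c hc d hd hexc had =>
  l1a (noD16_of hS) hE a ha b hb c hc d hd hexc had

/-- **HMax**: in a group without sections `D₁₆` and without normal locally finite subgroups every maximal `DLaw` set satisfies
`(x y z)⁴ = 1` -/
theorem hmax : HMax.{u} := hmax_of_L1A l1A

end Pool.Agent.Helper40.SV
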