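import Pool.Agent.Helper91.SV.L1a

/-!
# The two leaves of step L1a

`(a, b, c)` is exceptional, `u = [a, b]`, `d` commutes with `a`; `x' = x^d`. Let `S = [u', c]`. Then `S = S^d`, `S^a = S`,
`S^b = S^b'`; hence `w(a;b',c) = 1` and `w(b';c,a)` commutes with `d`. For `W = w(c;a,b')` one has `W W^d = u u'`. So if
`W = 1` or `(a b' c)⁴ = 1` then `u = u'`.
-/

set_option autoImplicit false

open Subgroup

namespace Pool.Agent.Helper40.SV

open Pool.Agent.Helper46.SV (kk cj ww omg cc cj_sq cj_cj cj_mul cj_kk inv_of commute_iff_cj cj_comm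
  comm_of_kk kk_of_comm kk_eq law_of_noD16 dl_of mul_mem_of_max NoD16 Exc caseFE mul_sq_comm)
open Pool.Agent.Helper46.SV.TE (Law DL ec ek_left ek_right ek_sq ek_comm abc_four omg_comm ej ww_symm
  ww_comm_self ww_comm_left ww_comm_right cj_e ww_sq)
open Pool.Agent.Helper94.SV.Frame (DLaw MaxLaw)
open Pool.Agent.Helper91.SV (cj_cj_comm h2_ident)

universe u

section pol

variable {G : Type u} [Group G]

/-- polarisation -/
theorem pol {A B C D : G} (hA : A * A = 1) (hB : B * B = 1) (hC : C * C = 1) (hD : D * D = 1)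
    (hAC : Commute A C) (hBD : Commute B D) (h : Commute (A * B) (C * D)) : kk A D = kk C B := by
  have h1 : A * B * (C * D) = C * D * (A * B) := h
  have h2 : C * (A * B * (C * D)) * B = D * A := by
    rw [h1]
    simp only [mul_assoc, cc hC, hB, mul_one]
  have h3 : C * (A * B * (C * D)) * B = A * (C * B * (C * B)) * D := by
    have e1 : C * (A * B * (C * D)) * B = (C * A) * B * C * (D * B) := by simp only [mul_assoc]
    rw [e1, ← hAC.eq, ← hBD.eq]
    simp only [mul_assoc]
  have h4 : A * (C * B * (C * B)) * D = D * A := by rw [← h3, h2]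
  show A * D * (A * D) = C * B * (C * B)
  calc A * D * (A * D) = A * (D * A) * D := by simp only [mul_assoc]
    _ = A * (A * (C * B * (C * B)) * D) * D := by rw [h4]
    _ = C * B * (C * B) := by
      have e1 : A * (A * (C * B * (C * B)) * D) * D = A * (A * (C * B * (C * B) * (D * D))) := by
        simp only [mul_assoc]
      rw [e1, cc hA, hD, mul_one]

/-- `[x, y t] = [x, t]` if `x`, `t` commute with `y` -/
theorem kk_mul_right {x y t : G} (hy : y * y = 1) (hxy : Commute x y) (hyt : Commute y t) :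
    kk x (y * t) = kk x t := by
  show x * (y * t) * (x * (y * t)) = x * t * (x * t)
  have e1 : x * (y * t) = y * (x * t) := by
    rw [← mul_assoc, hxy.eq, mul_assoc]
  have e2 : x * t * y = y * (x * t) := by
    rw [mul_assoc, ← hyt.eq, ← mul_assoc, hxy.eq, mul_assoc]
  rw [e1]
  calc y * (x * t) * (y * (x * t)) = y * (x * t * y) * (x * t) := by simp only [mul_assoc]
    _ = y * (y * (x * t)) * (x * t) := by rw [e2]
    _ = x * t * (x * t) := by rw [cc hy]

end pol

section basic

variable {G : Type u} [Group G] {E : Set G}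

/-- Jacobi for commuting `x`, `y` -/
theorem jac (hS : NoD16 G) (hE : MaxLaw E) {x y z : G} (hx : x ∈ E) (hy : y ∈ E) (hz : z ∈ E)
    (hxy : Commute x y) : kk x (kk y z) = kk y (kk x z) := by
  have hD := dl_of hE.law
  have hxx := hD.inv x hx
  have hyy := hD.inv y hy
  -- `z`, `z^x`, `z^y`, `z^(xy)` commute
  have k : Commute (cj z x) (cj z y) := cj_cj_comm hS hE hx hz hy hxy
  have hzx := ej hD hz hx
  have hzy := ej hD hz hy
  have e0 : cj (cj z x) y = cj (cj z y) x := by
    have h1 : x * y = y * x := hxy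
    show y * (x * z * x) * y = x * (y * z * y) * x
    calc y * (x * z * x) * y = (y * x) * z * (x * y) := by simp only [mul_assoc]
      _ = (x * y) * z * (y * x) := by rw [h1]
      _ = _ := by simp only [mul_assoc]
  have e1 : kk x (kk y z) = z * cj z y * (cj z x * cj (cj z x) y) := by
    have i1 : kk x (kk y z) = kk (kk y z) x := by
      have hm : kk y z ∈ E := Pool.Agent.Helper46.SV.c2_mem_of_max hS hE hy hz
      exact ek_comm hD hx hm
    rw [i1, kk_eq (kk y z) x, ek_comm hD hy hz, kk_eq z y, cj_mul hxx, ← e0]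
  have e2 : kk y (kk x z) = z * cj z x * (cj z y * cj (cj z x) y) := by
    have i1 : kk y (kk x z) = kk (kk x z) y := by
      have hm : kk x z ∈ E := Pool.Agent.Helper46.SV.c2_mem_of_max hS hE hx hz
      exact ek_comm hD hy hm
    rw [i1, kk_eq (kk x z) y, ek_comm hD hx hz, kk_eq z x, cj_mul hyy]
  rw [e1, e2]
  calc z * cj z y * (cj z x * cj (cj z x) y) = z * (cj z y * cj z x) * cj (cj z x) y := by
        simp only [mul_assoc]
    _ = z * (cj z x * cj z y) * cj (cj z x) y := by rw [k.eq]
    _ = _ := by simp only [mul_assoc]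

/-- if `s` commutes with `y` and `x` then it commutes with `w(y;x,z)` -/
theorem j3 (hS : NoD16 G) (hE : MaxLaw E) {s x y z : G} (hs : s ∈ E) (hx : x ∈ E) (hy : y ∈ E) (hz : z ∈ E)
    (hsy : Commute s y) (hsx : Commute s x) : Commute s (ww y x z) := by
  have hD := dl_of hE.law
  have hlaw := law_of_noD16 hS hD
  have hss := hD.inv s hs
  have hm : s * x ∈ E := mul_mem_of_max hS hE hs hx hsx
  have h1 : ww y (s * x) z = ww y x z := by
    have i1 : cj y (s * x) = cj y x := by
      show s * x * y * (s * x) = x * y * x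
      have h2 : s * x = x * s := hsx
      have h3 : s * y = y * s := hsy
      calc s * x * y * (s * x) = x * (s * y) * (s * x) := by rw [h2]; simp only [mul_assoc]
        _ = x * y * (s * (s * x)) := by rw [h3]; simp only [mul_assoc]
        _ = x * y * x := by rw [cc hss]
    show kk (cj y (s * x)) (cj y z) = kk (cj y x) (cj y z)
    rw [i1]
  have h2 : Commute (ww y x z) (s * x) := by
    rw [← h1]
    exact ww_comm_left hlaw hm hy hz
  have h3 : Commute (ww y x z) x := ww_comm_left hlaw hx hy hz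
  have h4 : Commute (ww y x z) (s * x * x) := h2.mul_right h3
  rw [mul_assoc, hD.inv x hx, mul_one] at h4
  exact h4.symm

end basic

section main

variable {G : Type u} [Group G] {E : Set G}

/-- the facts on `S = [u', c]` -/
theorem S_facts (hS : NoD16 G) (hE : MaxLaw E) {a b c d : G} (ha : a ∈ E) (hb : b ∈ E) (hc : c ∈ E)
    (hd : d ∈ E) (hexc : Exc a b c) (had : Commute a d) :
    ww a (cj b d) c = 1 ∧ Commute d (ww (cj b d) c a) := by
  have hD := dl_of hE.law
  have hlaw := law_of_noD16 hS hD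
  have haa := hD.inv a ha
  have hbb := hD.inv b hb
  have hcc := hD.inv c hc
  have hdd := hD.inv d hd
  have hb' := ej hD hb hd
  have hc' := ej hD hc hd
  have hbb' := hD.inv _ hb'
  have hcc' := hD.inv _ hc'
  have i1 : cj a d = a := (commute_iff_cj hdd).mp had
  have iu : cj (kk a b) d = kk a (cj b d) := by rw [cj_kk hdd, i1]
  obtain ⟨u, hu⟩ : ∃ u, u = kk a b := ⟨_, rfl⟩
  obtain ⟨v, hv⟩ : ∃ v, v = kk a (cj b d) := ⟨_, rfl⟩
  have huE : u ∈ E := by rw [hu]; exact Pool.Agent.Helper46.SV.c2_mem_of_max hS hE ha hb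
  have hvE : v ∈ E := by rw [hv]; exact Pool.Agent.Helper46.SV.c2_mem_of_max hS hE ha hb'
  have huu := hD.inv u huE
  have hvv := hD.inv v hvE
  have huv : cj u d = v := by rw [hu, hv, iu]
  have hvu : cj v d = u := by rw [← huv, cj_cj hdd]
  have ua : Commute u a := by rw [hu]; exact ek_left hD ha hb
  have ub : Commute u b := by rw [hu]; exact ek_right hD ha hb
  have uc : Commute u c := by rw [hu]; exact hexc.2.1
  have va : Commute v a := by rw [hv]; exact ek_left hD ha hb'
  have vb' : Commute v (cj b d) := by rw [hv]; exact ek_right hD ha hb'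
  have ub' : Commute u (cj b d) := by rw [hu]; exact h2_ident hS hE ha hb hd had
  have vb : Commute v b := by
    have k := cj_comm hdd ub'
    rwa [huv, cj_cj hdd] at k
  have ve : Commute v (cj c d) := by
    have k := cj_comm hdd uc
    rwa [huv] at k
  have uv : Commute u v := by
    rw [← huv]
    exact ec hD huE hd
  have ce : Commute c (cj c d) := ec hD hc hd
  -- (1) `[u, c'] = [v, c]`
  have s1 : kk u (cj c d) = kk v c := by
    refine pol huu hcc hvv hcc' uv ce ?_
    have hm : u * c ∈ E := mul_mem_of_max hS hE huE hc uc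
    have k := ec hD hm hd
    rwa [cj_mul hdd, huv] at k
  -- (2) `S^a = S`
  have ac := ej hD hc ha
  have fa : Commute (cj c a) (cj c d) := cj_cj_comm hS hE ha hc hd had
  have s2 : kk u (cj c d) = kk v (cj c a) := by
    refine pol huu (hD.inv _ ac) hvv hcc' uv fa ?_
    have uca : Commute u (cj c a) := by
      have k := cj_comm haa uc
      rwa [(commute_iff_cj haa).mp ua] at k
    have hm : u * cj c a ∈ E := mul_mem_of_max hS hE huE ac uca
    have hadE : a * d ∈ E := mul_mem_of_max hS hE ha hd had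
    have k := ec hD hm hadE
    have e1 : cj (u * cj c a) (a * d) = v * cj c d := by
      have h1 : a * d = d * a := had
      have e2 : cj (u * cj c a) (a * d) = d * (a * (u * cj c a) * a) * d := by
        show a * d * (u * cj c a) * (a * d) = d * (a * (u * cj c a) * a) * d
        calc a * d * (u * cj c a) * (a * d) = d * a * (u * cj c a) * (a * d) := by rw [h1]
          _ = _ := by simp only [mul_assoc]
      have e3 : a * (u * cj c a) * a = u * c := by
        show cj (u * cj c a) a = u * c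
        rw [cj_mul haa, cj_cj haa, (commute_iff_cj haa).mp ua]
      rw [e2, e3]
      show cj (u * c) d = _
      rw [cj_mul hdd, huv]
    rwa [e1] at k
  have hSE : kk v c ∈ E := Pool.Agent.Helper46.SV.c2_mem_of_max hS hE hvE hc
  have hSS := hD.inv _ hSE
  have Sa : cj (kk v c) a = kk v c := by
    rw [cj_kk haa, (commute_iff_cj haa).mp va, ← s2, s1]
  have Sd : cj (kk v c) d = kk v c := by
    rw [cj_kk hdd, hvu, s1]
  -- (3) `S^b = S^b'`
  have s3 : cj (kk v c) b = cj (kk v c) (cj b d) := by
    obtain ⟨κ, hκ⟩ : ∃ κ, κ = cj (cj c b) a := ⟨_, rfl⟩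
    obtain ⟨κ', hκ'⟩ : ∃ κ', κ' = cj (cj (cj c d) (cj b d)) a := ⟨_, rfl⟩
    have hκE : κ ∈ E := by rw [hκ]; exact ej hD (ej hD hc hb) ha
    have hκd : cj κ d = κ' := by
      have h1 : a * d = d * a := had
      rw [hκ, hκ']
      show d * (a * (b * c * b) * a) * d =
        a * (d * b * d * (d * c * d) * (d * b * d)) * a
      calc d * (a * (b * c * b) * a) * d = (d * a) * (b * c * b) * (a * d) := by simp only [mul_assoc]
        _ = (a * d) * (b * c * b) * (d * a) := by rw [h1]
        _ = _ := by simp only [mul_assoc, cc hdd]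
    have uκ : Commute u κ := by
      have k := cj_comm haa (cj_comm hbb uc)
      rwa [(commute_iff_cj hbb).mp ub, (commute_iff_cj haa).mp ua, ← hκ] at k
    have hκκ := ec hD hκE hd
    rw [hκd] at hκκ
    have hκ'E : κ' ∈ E := by rw [← hκd]; exact ej hD hκE hd
    have s4 : kk u κ' = kk v κ := by
      refine pol huu (hD.inv _ hκE) hvv (hD.inv _ hκ'E) uv hκκ ?_
      have hm : u * κ ∈ E := mul_mem_of_max hS hE huE hκE uκ
      have k := ec hD hm hd
      rwa [cj_mul hdd, huv, hκd] at k
    have e1 : kk v κ = cj (cj (kk v c) b) a := by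
      rw [cj_kk hbb, cj_kk haa, (commute_iff_cj hbb).mp vb, (commute_iff_cj haa).mp va, hκ]
    have e2 : kk u κ' = cj (cj (kk v c) (cj b d)) a := by
      rw [← s1, cj_kk hbb', cj_kk haa, (commute_iff_cj hbb').mp ub', (commute_iff_cj haa).mp ua, hκ']
    rw [e1, e2] at s4
    have k := congrArg (fun x => cj x a) s4
    simp only [cj_cj haa] at k
    exact k.symm
  -- `c^v = ...`: `v^c = v S`
  have hvc : cj v c = v * kk v c := by rw [kk_eq, cc hvv]
  have vS : Commute v (kk v c) := (ek_left hD hvE hc).symm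
  have W2 : ww a (cj b d) c = 1 := by
    have k := cj_e hlaw ha hb' hc
    rw [← hv, hvc, cj_mul haa, Sa, (commute_iff_cj haa).mp va] at k
    exact (left_eq_mul.mp k)
  refine ⟨W2, ?_⟩
  have hW4 : ww (cj b d) a c = kk v c * cj (kk v c) (cj b d) := by
    have k := cj_e hlaw hb' ha hc
    rw [ek_comm hD hb' ha, ← hv, hvc, cj_mul hbb', (commute_iff_cj hbb').mp vb', mul_assoc] at k
    have k2 := mul_left_cancel k
    rw [k2, ← mul_assoc, hSS, one_mul]
  rw [← ww_symm hlaw ha hb' hc]
  rw [hW4]
  have hd1 : cj (kk v c * cj (kk v c) (cj b d)) d = kk v c * cj (kk v c) (cj b d) := by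
    rw [cj_mul hdd, Sd]
    have e1 : cj (cj (kk v c) (cj b d)) d = cj (kk v c) b := by
      have e2 : cj (cj (kk v c) (cj b d)) d = cj (cj (kk v c) d) b := by
        simp only [cj, mul_assoc, cc hdd, hdd, mul_one]
      rw [e2, Sd]
    rw [e1, s3]
  exact ((commute_iff_cj hdd).mpr hd1).symm

/-- `W W^d = u u^d` for `W = w(c;a,b^d)` -/
theorem W_rel (hS : NoD16 G) (hE : MaxLaw E) {a b c d : G} (ha : a ∈ E) (hb : b ∈ E) (hc : c ∈ E)
    (hd : d ∈ E) (hexc : Exc a b c) (had : Commute a d) :
    ww c a (cj b d) * kk a b = cj (ww c a (cj b d)) d * cj (kk a b) d := by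
  have hD := dl_of hE.law
  have hlaw := law_of_noD16 hS hD
  have haa := hD.inv a ha
  have hbb := hD.inv b hb
  have hcc := hD.inv c hc
  have hdd := hD.inv d hd
  obtain ⟨b', hb'⟩ : ∃ b', b' = cj b d := ⟨_, rfl⟩
  obtain ⟨e, he⟩ : ∃ e, e = cj c d := ⟨_, rfl⟩
  have hbE : b' ∈ E := by rw [hb']; exact ej hD hb hd
  have heE : e ∈ E := by rw [he]; exact ej hD hc hd
  have hbb' := hD.inv _ hbE
  have hee := hD.inv _ heE
  have i1 : cj a d = a := (commute_iff_cj hdd).mp had
  obtain ⟨u, hu⟩ : ∃ u, u = kk a b := ⟨_, rfl⟩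
  have huE : u ∈ E := by rw [hu]; exact Pool.Agent.Helper46.SV.c2_mem_of_max hS hE ha hb
  have huu := hD.inv u huE
  have ua : Commute u a := by rw [hu]; exact ek_left hD ha hb
  have ub : Commute u b := by rw [hu]; exact ek_right hD ha hb
  have uc : Commute u c := by rw [hu]; exact hexc.2.1
  have ub' : Commute u b' := by rw [hu, hb']; exact h2_ident hS hE ha hb hd had
  have bb' : Commute b b' := by rw [hb']; exact ec hD hb hd
  have ce : Commute c e := by rw [he]; exact ec hD hc hd
  -- `w(c;a,b) = u`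
  have hwu : ww c a b = u := by
    have k := hexc.1
    rw [abc_four hlaw ha hb hc] at k
    unfold omg at k
    rw [hexc.2.2.1, hexc.2.2.2, one_mul, one_mul] at k
    rw [← k, hu]
  obtain ⟨α, hα⟩ : ∃ α, α = cj c a := ⟨_, rfl⟩
  obtain ⟨α', hα'⟩ : ∃ α', α' = cj e a := ⟨_, rfl⟩
  obtain ⟨p, hp⟩ : ∃ p, p = cj c b := ⟨_, rfl⟩
  obtain ⟨p', hp'⟩ : ∃ p', p' = cj c b' := ⟨_, rfl⟩
  obtain ⟨q, hq⟩ : ∃ q, q = cj e b := ⟨_, rfl⟩
  obtain ⟨q', hq'⟩ : ∃ q', q' = cj e b' := ⟨_, rfl⟩
  have αE : α ∈ E := by rw [hα]; exact ej hD hc ha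
  have α'E : α' ∈ E := by rw [hα']; exact ej hD heE ha
  have pE : p ∈ E := by rw [hp]; exact ej hD hc hb
  have p'E : p' ∈ E := by rw [hp']; exact ej hD hc hbE
  have qE : q ∈ E := by rw [hq]; exact ej hD heE hb
  have q'E : q' ∈ E := by rw [hq']; exact ej hD heE hbE
  have αd : cj α d = α' := by
    have h1 : a * d = d * a := had
    rw [hα, hα', he]
    show d * (a * c * a) * d = a * (d * c * d) * a
    calc d * (a * c * a) * d = (d * a) * c * (a * d) := by simp only [mul_assoc]
      _ = (a * d) * c * (d * a) := by rw [h1]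
      _ = _ := by simp only [mul_assoc]
  have α'd : cj α' d = α := by rw [← αd, cj_cj hdd]
  have pd : cj p d = q' := by
    rw [hp, hq', he, hb']
    simp only [cj, mul_assoc, cc hdd]
  have p'd : cj p' d = q := by
    rw [hp', hq, he, hb']
    simp only [cj, mul_assoc, cc hdd, hdd, mul_one]
  have qd : cj q d = p' := by rw [← p'd, cj_cj hdd]
  have q'd : cj q' d = p := by rw [← pd, cj_cj hdd]
  -- `t = [b, c]`
  obtain ⟨t, ht⟩ : ∃ t, t = kk c b := ⟨_, rfl⟩
  have tE : t ∈ E := by rw [ht]; exact Pool.Agent.Helper46.SV.c2_mem_of_max hS hE hc hb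
  have tc : Commute t c := by rw [ht]; exact ek_left hD hc hb
  have htt := hD.inv t tE
  have hpct : p = c * t := by rw [hp, ht, kk_eq, cc hcc]
  have hq't : q' = e * cj t d := by rw [← pd, hpct, cj_mul hdd, he]
  have αe : Commute α e := by rw [hα, he]; exact cj_cj_comm hS hE ha hc hd had
  -- `[α, b] = t^a`
  have hαb : kk α b = cj t a := by
    have e1 : cj b a = b * u := by rw [hu, ek_comm hD ha hb, kk_eq, cc hbb]
    have e2 : kk α b = cj (kk c (cj b a)) a := by rw [cj_kk haa, cj_cj haa, hα]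
    have e3 : kk c (b * u) = kk c b := by
      rw [ub.symm.eq]
      exact kk_mul_right huu uc.symm ub
    rw [e2, e1, e3, ht]
  -- `[α, q] = [α, q']`
  have k1 : kk α q = kk α q' := by
    have eb := kk_eq e b
    have ebE : kk e b ∈ E := Pool.Agent.Helper46.SV.c2_mem_of_max hS hE heE hb
    have e1 : q = e * kk e b := by rw [hq, eb, cc hee]
    have e2 : kk α q = kk α (kk e b) := by
      rw [e1]
      exact kk_mul_right hee αe (ek_left hD heE hb).symm
    have e3 : kk α (kk e b) = kk e (kk α b) := jac hS hE αE heE hb αe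
    have t'E : cj t d ∈ E := ej hD tE hd
    have taE : cj t a ∈ E := ej hD tE ha
    have e4 : kk α q' = kk α (cj t d) := by
      rw [hq't]
      refine kk_mul_right hee αe ?_
      rw [he]
      exact cj_comm hdd tc.symm
    have e5 : kk (cj t a) e = kk (cj t d) α := by
      have f1 : Commute (cj t a) (cj t d) := cj_cj_comm hS hE ha tE hd had
      have hm : t * c ∈ E := mul_mem_of_max hS hE tE hc tc
      have f2 : Commute (cj (t * c) a) (cj (t * c) d) := cj_cj_comm hS hE ha hm hd had
      rw [cj_mul haa, cj_mul hdd, ← hα, ← he] at f2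
      exact pol (hD.inv _ taE) (hD.inv _ αE) (hD.inv _ t'E) hee f1 αe f2
    rw [e2, e3, hαb, ek_comm hD heE taE, e5, ek_comm hD t'E αE, ← e4]
  have qq' : Commute q q' := by rw [hq, hq']; exact cj_cj_comm hS hE hb heE hbE bb'
  have pp' : Commute p p' := by rw [hp, hp']; exact cj_cj_comm hS hE hb hc hbE bb'
  have hqq := hD.inv q qE
  have hqq' := hD.inv q' q'E
  have hαα := hD.inv α αE
  obtain ⟨P, hP⟩ : ∃ P, P = p * p' := ⟨_, rfl⟩
  obtain ⟨P', hP'⟩ : ∃ P', P' = q' * q := ⟨_, rfl⟩
  have PE : P ∈ E := by rw [hP]; exact mul_mem_of_max hS hE pE p'E pp'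
  have Pd : cj P d = P' := by rw [hP, cj_mul hdd, pd, p'd, hP']
  have P'E : P' ∈ E := by rw [← Pd]; exact ej hD PE hd
  have P'd : cj P' d = P := by rw [← Pd, cj_cj hdd]
  -- `α` commutes with `P'`
  have αP' : Commute α P' := by
    have h1 : α * q * (α * q) = α * q' * (α * q') := k1
    have h2 : q * α * q = q' * α * q' := by
      have : α * (α * q * (α * q)) = α * (α * q' * (α * q')) := by rw [h1]
      simpa only [mul_assoc, cc hαα] using this
    show α * P' = P' * α
    have h3 : q' * (q * α * q) * q = α * (q' * q) := by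
      rw [h2]
      simp only [mul_assoc, cc hqq']
    rw [hP', ← h3]
    simp only [mul_assoc, hqq, mul_one]
  have α'P : Commute α' P := by
    have k := cj_comm hdd αP'
    rwa [αd, P'd] at k
  -- `n = [c, d]`
  obtain ⟨n, hn⟩ : ∃ n, n = c * e := ⟨_, rfl⟩
  have nE : n ∈ E := by rw [hn]; exact mul_mem_of_max hS hE hc heE ce
  have ed : cj e d = c := by rw [he, cj_cj hdd]
  have nd : Commute n d := by
    rw [commute_iff_cj hdd, hn, cj_mul hdd, ed, ← he, ce.eq]
  have nna : cj n a = α * α' := by rw [hn, cj_mul haa, hα, hα']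
  have nnb : cj n b = p * q := by rw [hn, cj_mul hbb, hp, hq]
  have naE := ej hD nE ha
  have nbE := ej hD nE hb
  have nad : Commute (cj n a) d := by
    have k := cj_comm haa nd
    rwa [(commute_iff_cj haa).mp had.symm] at k
  have k2 : Commute (cj n a) (kk d (cj n b)) := by
    have h1 : kk (cj n a) (kk d (cj n b)) = kk d (kk (cj n a) (cj n b)) := jac hS hE naE hd nbE nad
    have h2 : Commute d (ww n a b) := j3 hS hE hd ha nE hb nd.symm had.symm
    have h3 : kk d (kk (cj n a) (cj n b)) = 1 :=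
      kk_of_comm hdd (hD.inv _ (Pool.Agent.Helper46.SV.c2_mem_of_max hS hE naE nbE)) h2
    rw [h3] at h1
    exact comm_of_kk (hD.inv _ naE) (hD.inv _ (Pool.Agent.Helper46.SV.c2_mem_of_max hS hE hd nbE)) h1
  have p'q : Commute p' q := by rw [← p'd]; exact ec hD p'E hd
  have p'q' : Commute p' q' := by
    rw [hp', hq']
    exact cj_comm hbb' ce
  have k3 : kk d (cj n b) = P * P' := by
    rw [ek_comm hD hd nbE, kk_eq, nnb, cj_mul hdd, pd, qd, hP, hP']
    calc p * q * (q' * p') = p * (q * q' * p') := by simp only [mul_assoc]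
      _ = p * (q' * q * p') := by rw [qq'.eq]
      _ = p * (p' * (q' * q)) := by rw [(p'q'.mul_right p'q).eq]
      _ = p * p' * (q' * q) := by simp only [mul_assoc]
  rw [k3, nna] at k2
  have αα' : Commute α α' := by
    rw [hα, hα']
    exact cj_comm haa ce
  have PP' : Commute P P' := by rw [← Pd]; exact ec hD PE hd
  -- `[α, P] = [α', P']`
  have k4 : kk α P = kk α' P' := by
    have h1 : kk α P = kk P' α' := by
      refine pol hαα (hD.inv _ α'E) (hD.inv _ P'E) (hD.inv _ PE) αP' α'P ?_
      rw [PP'.symm.eq]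
      exact k2
    rw [h1, ek_comm hD P'E α'E]
  -- `[α, P] = W u`
  have up' : Commute u p' := by
    have k := cj_comm hbb' uc
    rw [(commute_iff_cj hbb').mp ub'] at k
    rw [hp']
    exact k
  have k5 : kk α P = ww c a b' * u := by
    have e1 : cj α p = α * u := by
      rw [← hwu]
      show _ = α * kk (cj c a) (cj c b)
      rw [← hα, ← hp, kk_eq, cc hαα]
    have e2 : cj α p' = α * ww c a b' := by
      show _ = α * kk (cj c a) (cj c b')
      rw [← hα, ← hp', kk_eq, cc hαα]
    have hpp := hD.inv p pE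
    have hpp' := hD.inv p' p'E
    have e3 : cj α P = cj (cj α p) p' := by
      rw [hP]
      show p * p' * α * (p * p') = p' * (p * α * p) * p'
      calc p * p' * α * (p * p') = (p' * p) * α * (p * p') := by rw [pp'.eq]
        _ = _ := by simp only [mul_assoc]
    rw [kk_eq, e3, e1, cj_mul hpp', e2, (commute_iff_cj hpp').mp up', mul_assoc, cc hαα]
  have k6 : kk α' P' = cj (kk α P) d := by rw [cj_kk hdd, αd, Pd]
  rw [← k4, k5, cj_mul hdd] at k6
  rw [← hb', ← hu]
  exact k6

/-- if `(a b' c)⁴ = 1` or `w(c;a,b') = 1` then `u` commutes with `d` -/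
theorem comm_of_leaf (hS : NoD16 G) (hE : MaxLaw E) {a b c d : G} (ha : a ∈ E) (hb : b ∈ E) (hc : c ∈ E)
    (hd : d ∈ E) (hexc : Exc a b c) (had : Commute a d)
    (h : omg a (cj b d) c = 1 ∨ ww c a (cj b d) = 1) : Commute (kk a b) d := by
  have hD := dl_of hE.law
  have hlaw := law_of_noD16 hS hD
  have hdd := hD.inv d hd
  have hb' := ej hD hb hd
  have h1 := W_rel hS hE ha hb hc hd hexc had
  have hW : cj (ww c a (cj b d)) d = ww c a (cj b d) := by
    rcases h with h | h
    · obtain ⟨h2, h3⟩ := S_facts hS hE ha hb hc hd hexc had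
      have h4 : ww (cj b d) c a * ww c a (cj b d) = 1 := by
        unfold omg at h
        rwa [h2, one_mul] at h
      have h5 : ww (cj b d) c a * ww (cj b d) c a = 1 := ww_sq hlaw hc hb' ha
      have h6 : ww c a (cj b d) = ww (cj b d) c a := mul_left_cancel (h4.trans h5.symm)
      rw [h6]
      exact (commute_iff_cj hdd).mp h3.symm
    · rw [h]
      simp only [cj, mul_one, hdd]
  rw [hW] at h1
  have h2 := mul_left_cancel h1
  exact (commute_iff_cj hdd).mpr h2.symm

/-- `u` commutes with `c^d` if it commutes with `c` and `d` -/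
theorem comm_cj_of {u c d : G} (hc : Commute u c) (hd : Commute u d) : Commute u (cj c d) :=
  (hd.mul_right hc).mul_right hd

theorem leaf1 (hS : NoD16 G) (hE : MaxLaw E) : Pool.Agent.Helper91.SV.Leaf1 E :=
  fun _ ha _ hb _ hc _ hd hexc had h =>
    comm_cj_of hexc.2.1 (comm_of_leaf hS hE ha hb hc hd hexc had (Or.inl h))

theorem leaf2 (hS : NoD16 G) (hE : MaxLaw E) : Pool.Agent.Helper91.SV.Leaf2 E :=
  fun _ ha _ hb _ hc _ hd hexc had h =>
    comm_cj_of hexc.2.1 (comm_of_leaf hS hE ha hb hc hd hexc had (Or.inr h))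

/-- **L1a** -/
theorem l1a (hS : NoD16 G) (hE : MaxLaw E) : Pool.Agent.Helper91.SV.L1a E :=
  Pool.Agent.Helper91.SV.l1a_of_leaves hS hE (leaf1 hS hE) (leaf2 hS hE)

end main

end Pool.Agent.Helper40.SV
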